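import Pool.Agent.W851.BE.Stm

/-!
# Transport of the conclusion under conjugation
-/

set_option autoImplicit false

open Polynomial Topology Filter MeasureTheory
open scoped ENNReal

namespace Pool.Agent.W589.BE.TR

open Pool.Agent.W95.BK Pool.Agent.W851.BE

universe u

/-- classical points -/
def Cla {K : Type u} [NontriviallyNormedField K] [IsUltrametricDist K] (x : P1B K) : Prop :=
  x = OnePoint.infty ∨ ∃ c : K, x = ((cl c : BA K) : P1B K)

section
variable {K : Type u} [NontriviallyNormedField K] [IsUltrametricDist K]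

theorem tri (x : P1B K) : Cla x ∨ ∃ y : BA K, HK y ∧ x = (y : P1B K) := by
  induction x using OnePoint.rec with
  | infty => exact Or.inl (Or.inl rfl)
  | coe y =>
    by_cases h : HK y
    · exact Or.inr ⟨y, h, rfl⟩
    · unfold HK at h
      push Not at h
      obtain ⟨a, ha⟩ := h
      exact Or.inl (Or.inr ⟨a, by rw [ha]⟩)

theorem not_both {x : P1B K} (h : Cla x) (y : BA K) (hy : HK y) (hx : x = (y : P1B K)) : False := by
  rcases h with h | ⟨a, h⟩
  · rw [hx] at h
    exact OnePoint.coe_ne_infty _ h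
  · rw [hx] at h
    exact hy a (OnePoint.coe_injective h)

theorem sph_id (x : P1B K) (h : Cla x) : sphDeriv (RMap.id K) x = 1 := by
  have hw : wr (RMap.id K) = 1 := by
    simp [wr, RMap.id]
  rcases h with rfl | ⟨a, rfl⟩
  · have : sphDeriv (RMap.id K) OnePoint.infty =
        ‖(wr (RMap.id K)).coeff (2 * (RMap.id K).d - 2)‖ /
          max ‖(RMap.id K).P.coeff (RMap.id K).d‖ ‖(RMap.id K).Q.coeff (RMap.id K).d‖ ^ 2 := rfl
    rw [this, hw]
    simp [RMap.id, coeff_one]
  · have : sphDeriv (RMap.id K) ((cl a : BA K) : P1B K) =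
        (cl a : BA K) (wr (RMap.id K)) * max 1 ((cl a : BA K) X) ^ 2 /
          max ((cl a : BA K) (RMap.id K).P) ((cl a : BA K) (RMap.id K).Q) ^ 2 := rfl
    rw [this, hw]
    have h1 : (cl a : BA K) 1 = 1 := BA.map_one _
    have h2 : (RMap.id K).P = X := rfl
    have h3 : (RMap.id K).Q = 1 := rfl
    rw [h2, h3, h1, one_mul, max_comm]
    apply div_self
    have : (1 : ℝ) ≤ max ((cl a : BA K) X) 1 := le_max_right _ _
    positivity

end

section
variable {K : Type u} [NontriviallyNormedField K] [IsUltrametricDist K] [IsAlgClosed K]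

theorem act_cla (hA : S_ACT.{u}) (m : RMap K) {x : P1B K} (h : Cla x) : Cla (m.act x) := by
  classical
  rcases h with rfl | ⟨a, rfl⟩
  · have : m.act OnePoint.infty = if m.Q.coeff m.d = 0 then (OnePoint.infty : P1B K)
      else ((cl (m.P.coeff m.d / m.Q.coeff m.d) : BA K) : P1B K) := by
      unfold RMap.act
      simp only [OnePoint.elim_infty]
    rw [this]
    split_ifs with h
    · exact Or.inl rfl
    · exact Or.inr ⟨_, rfl⟩
  · obtain ⟨_, h2, h3, _⟩ := hA K m
    by_cases hq : m.Q.eval a = 0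
    · exact Or.inl (h3 a hq)
    · exact Or.inr ⟨_, h2 a hq⟩

/-- data of a conjugation -/
structure Conj (m m' : RMap K) : Prop where
  h1 : m.comp m' = RMap.id K
  h2 : m'.comp m = RMap.id K
  d1 : m.d = 1
  d2 : m'.d = 1

theorem act_inv (hF : S_FUNC.{u}) {m m' : RMap K} (h : Conj m m') (x : P1B K) :
    m.act (m'.act x) = x := by
  rw [← (hF K).1, h.h1, (hF K).2]

theorem act_inv' (hF : S_FUNC.{u}) {m m' : RMap K} (h : Conj m m') (x : P1B K) :
    m'.act (m.act x) = x := by
  rw [← (hF K).1, h.h2, (hF K).2]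

theorem fix_iff (hF : S_FUNC.{u}) {m m' : RMap K} (h : Conj m m') (f : RMap K) (x : P1B K) :
    (m.comp (f.comp m')).act (m.act x) = m.act x ↔ f.act x = x := by
  rw [(hF K).1, (hF K).1, act_inv' hF h]
  constructor
  · intro h3
    have := congrArg m'.act h3
    rwa [act_inv' hF h, act_inv' hF h] at this
  · intro h3
    rw [h3]

theorem ld_eq (hA : S_ACT.{u}) (hF : S_FUNC.{u}) (hCh : S_CHAIN.{u}) (hD : S_DEG1.{u})
    {m m' : RMap K} (h : Conj m m') (f : RMap K) (x : BA K) (hx : HK x) :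
    localDeg (m.comp (f.comp m')) (m.act (x : P1B K)) = localDeg f (x : P1B K) := by
  obtain ⟨y, hy, hy1, _⟩ := (hA K m).1 x hx
  obtain ⟨z, hz, hz1, _⟩ := (hA K f).1 x hx
  have hm'y : m'.act (y : P1B K) = (x : P1B K) := by
    rw [← hy1, act_inv' hF h]
  rw [hy1, hCh K m (f.comp m') y hy, hCh K f m' y hy, (hF K).1, hm'y, hz1,
    (hD K m z hz).2 h.d1, (hD K m' y hy).2 h.d2, one_mul, mul_one]

theorem sph_eq (hA : S_ACT.{u}) (hF : S_FUNC.{u}) (hS : S_SPHCH.{u})
    {m m' : RMap K} (h : Conj m m') (f : RMap K) (x : P1B K) (hx : Cla x) (hfx : f.act x = x) :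
    sphDeriv (m.comp (f.comp m')) (m.act x) = sphDeriv f x := by
  have hy : Cla (m.act x) := act_cla hA m hx
  have e1 := hS K m (f.comp m') (m.act x) hy
  have e2 := hS K f m' (m.act x) hy
  rw [(hF K).1, act_inv' hF h, hfx, e2, act_inv' hF h] at e1
  have e3 := hS K m' m x hx
  rw [h.h2, sph_id x hx] at e3
  rw [e1]
  calc sphDeriv m x * (sphDeriv f x * sphDeriv m' (m.act x))
      = sphDeriv f x * (sphDeriv m' (m.act x) * sphDeriv m x) := by ring
    _ = sphDeriv f x := by rw [← e3, mul_one]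

theorem rf_map (hA : S_ACT.{u}) (hF : S_FUNC.{u}) (hCh : S_CHAIN.{u}) (hD : S_DEG1.{u})
    (hS : S_SPHCH.{u}) {m m' : RMap K} (h : Conj m m') (f : RMap K) (x : P1B K) :
    m.act x ∈ RF (m.comp (f.comp m')) ↔ x ∈ RF f := by
  rcases tri x with hx | ⟨y, hy, rfl⟩
  · have hcx : Cla (m.act x) := act_cla hA m hx
    constructor
    · rintro (⟨y, hy, hy1, _⟩ | ⟨_, h1, h2⟩)
      · exact absurd hy1 (fun h => not_both hcx y hy h)
      · rw [fix_iff hF h] at h1
        rw [sph_eq hA hF hS h f x hx h1] at h2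
        exact Or.inr ⟨hx, h1, h2⟩
    · rintro (⟨y, hy, hy1, _⟩ | ⟨_, h1, h2⟩)
      · exact absurd hy1 (fun h => not_both hx y hy h)
      · refine Or.inr ⟨hcx, ?_, ?_⟩
        · rw [fix_iff hF h]; exact h1
        · rw [sph_eq hA hF hS h f x hx h1]; exact h2
  · obtain ⟨z, hz, hz1, _⟩ := (hA K m).1 y hy
    constructor
    · rintro (⟨w, hw, hw1, h1, h2⟩ | ⟨h0, _, _⟩)
      · rw [fix_iff hF h] at h1
        rw [ld_eq hA hF hCh hD h f y hy] at h2
        exact Or.inl ⟨y, hy, rfl, h1, h2⟩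
      · exact absurd hz1 (fun h' => not_both h0 z hz h')
    · rintro (⟨w, hw, hw1, h1, h2⟩ | ⟨h0, _, _⟩)
      · refine Or.inl ⟨z, hz, hz1, ?_, ?_⟩
        · rw [fix_iff hF h]; exact h1
        · rw [ld_eq hA hF hCh hD h f y hy]; exact h2
      · exact absurd rfl (fun h' => not_both h0 y hy h')

theorem ld_rf (hA : S_ACT.{u}) (hF : S_FUNC.{u}) (hCh : S_CHAIN.{u}) (hD : S_DEG1.{u})
    (hS : S_SPHCH.{u}) (hL : S_LD1.{u}) {m m' : RMap K} (h : Conj m m') (f : RMap K) (x : P1B K)
    (hx : x ∈ RF f) : localDeg (m.comp (f.comp m')) (m.act x) = localDeg f x := by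
  rcases hx with ⟨y, hy, rfl, h1, h2⟩ | ⟨h0, h1, h2⟩
  · exact ld_eq hA hF hCh hD h f y hy
  · have hcx : Cla (m.act x) := act_cla hA m h0
    rw [hL K f x h0 h1 (by linarith)]
    refine hL K _ _ hcx ?_ ?_
    · rw [fix_iff hF h]; exact h1
    · rw [sph_eq hA hF hS h f x h0 h1]; linarith

end

theorem main : S_ACT.{u} → S_FUNC.{u} → S_ACTC.{u} → S_CHAIN.{u} → S_DEG1.{u} → S_SPHCH.{u} →
    S_LD1.{u} → S_CONJ.{u} → S_TR.{u} := by
  intro hA hF hAC hCh hD hS hL hCo K _ _ _ R c ρ hR hρ hC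
  obtain ⟨c1, c2, c3, c4, -⟩ := hCo K R c
  have hcj : Conj (mob c) (mobi c) := ⟨c1, c2, rfl, rfl⟩
  have hmem : ∀ n x, (mob c).act x ∈ RF ((conjM R c).iter n) ↔ x ∈ RF (R.iter n) := by
    intro n x
    rw [c4 n]
    exact rf_map hA hF hCh hD hS hcj (R.iter n) x
  have hbij : ∀ n, Set.BijOn (mob c).act (RF (R.iter n)) (RF ((conjM R c).iter n)) := by
    intro n
    refine ⟨fun x hx => (hmem n x).mpr hx, fun x _ y _ hxy => ?_, fun y hy => ?_⟩
    · have := congrArg (mobi c).act hxy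
      rwa [act_inv' hF hcj, act_inv' hF hcj] at this
    · refine ⟨(mobi c).act y, ?_, act_inv hF hcj y⟩
      rw [← hmem n, act_inv hF hcj]
      exact hy
  refine ⟨fun n hn => ?_, fun φ => ?_⟩
  · have hfin := hC.1 n hn
    rw [← (hbij n).image_eq] at hfin
    exact Set.Finite.of_finite_image hfin (hbij n).injOn
  · let ψ : C(P1B K, ℝ) := ⟨fun y => φ ((mobi c).act y), φ.continuous.comp (hAC K (mobi c))⟩
    have h1 := hC.2 ψ
    have hint : ∫ y, ψ y ∂(ρ.map (mob c).act) = ∫ x, φ x ∂ρ := by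
      rw [integral_map (hAC K (mob c)).measurable.aemeasurable
        ψ.continuous.aestronglyMeasurable]
      refine integral_congr_ae (Eventually.of_forall fun x => ?_)
      show φ ((mobi c).act ((mob c).act x)) = φ x
      rw [act_inv' hF hcj]
    rw [hint, c3] at h1
    refine h1.congr fun n => ?_
    congr 1
    symm
    refine finsum_mem_eq_of_bijOn (mob c).act (hbij n) fun x hx => ?_
    have e1 : localDeg ((conjM R c).iter n) ((mob c).act x) = localDeg (R.iter n) x := by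
      rw [c4 n]
      exact ld_rf hA hF hCh hD hS hL hcj (R.iter n) x hx
    have e2 : ψ ((mob c).act x) = φ x := by
      show φ ((mobi c).act ((mob c).act x)) = φ x
      rw [act_inv' hF hcj]
    rw [e1, e2]

end Pool.Agent.W589.BE.TR
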